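import Mathlib
import Pool.Agent.Y268.D3.Stm

/-!
The cocycles of a form that is constant on the unitary `2 × 2` matrices (job D3-ISOALG).
-/

set_option autoImplicit false

open scoped ComplexOrder InnerProductSpace ComplexConjugate Topology
open Finset Filter

noncomputable section

namespace Pool.Agent.Y461.D3

open Y268.D3

variable {B : Type} [CStarAlgebra B] {f : B → B → ℂ} {C : ℝ}

namespace IsFormB'

theorem addL (hf : IsFormB f C) (x y z : B) : f (x + y) z = f x z + f y z := by
  rw [hf.herm z (x + y), hf.add, map_add, ← hf.herm, ← hf.herm]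

theorem smulL (hf : IsFormB f C) (c : ℂ) (x y : B) : f (c • x) y = conj c * f x y := by
  rw [hf.herm y (c • x), hf.smul, map_mul, ← hf.herm]

theorem zeroR (hf : IsFormB f C) (x : B) : f x 0 = 0 := by
  have := hf.smul 0 x 0
  simpa using this

theorem negR (hf : IsFormB f C) (x y : B) : f x (-y) = - f x y := by
  have := hf.smul (-1) x y
  simpa using this

theorem negL (hf : IsFormB f C) (x y : B) : f (-x) y = - f x y := by
  have := smulL hf (-1) x y
  simpa using this

theorem subR (hf : IsFormB f C) (x y z : B) : f x (y - z) = f x y - f x z := by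
  rw [sub_eq_add_neg, hf.add, negR hf, sub_eq_add_neg]

theorem subL (hf : IsFormB f C) (x y z : B) : f (x - y) z = f x z - f y z := by
  rw [sub_eq_add_neg, addL hf, negL hf, sub_eq_add_neg]

end IsFormB'

open IsFormB'

/-- additivity of an expression over the span of the unitaries -/
theorem span_induction' {p : B → Prop} (h0 : p 0) (hadd : ∀ x y, p x → p y → p (x + y))
    (hsmul : ∀ (c : ℂ) x, p x → p (c • x)) (hu : ∀ v ∈ unitary B, p v) (y : B) : p y := by
  have hy : y ∈ Submodule.span ℂ (unitary B : Set B) := by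
    rw [CStarAlgebra.span_unitary]; trivial
  induction hy using Submodule.span_induction with
  | mem x hx => exact hu x hx
  | zero => exact h0
  | add x y _ _ hx hy => exact hadd x y hx hy
  | smul c x _ hx => exact hsmul c x hx

/-- the defect -/
def PP (f : B → B → ℂ) (a c y y' : B) : ℂ :=
  f (a * y * c) (a * y' * c) - f (a * y) (a * y') - f (y * c) (y' * c) + f y y'

theorem PP_addR (hf : IsFormB f C) (a c y z z' : B) :
    PP f a c y (z + z') = PP f a c y z + PP f a c y z' := by
  unfold PP
  simp only [mul_add, add_mul, hf.add]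
  ring

theorem PP_smulR (hf : IsFormB f C) (a c y z : B) (t : ℂ) :
    PP f a c y (t • z) = t * PP f a c y z := by
  unfold PP
  simp only [mul_smul_comm, smul_mul_assoc, hf.smul]
  ring

theorem PP_herm (hf : IsFormB f C) (a c y z : B) :
    PP f a c z y = conj (PP f a c y z) := by
  unfold PP
  rw [map_add, map_sub, map_sub, ← hf.herm, ← hf.herm, ← hf.herm, ← hf.herm]

theorem PP_addL (hf : IsFormB f C) (a c y z z' : B) :
    PP f a c (z + z') y = PP f a c z y + PP f a c z' y := by
  rw [PP_herm hf a c y (z + z'), PP_addR hf, map_add, ← PP_herm hf, ← PP_herm hf]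

theorem PP_smulL (hf : IsFormB f C) (a c y z : B) (t : ℂ) :
    PP f a c (t • z) y = conj t * PP f a c z y := by
  rw [PP_herm hf a c y (t • z), PP_smulR hf, map_mul, ← PP_herm hf]

theorem quarter (hf : IsFormB f C) (x : B) :
    f ((2⁻¹ : ℂ) • x) ((2⁻¹ : ℂ) • x) = 4⁻¹ * f x x := by
  rw [hf.smul, smulL hf]
  simp only [map_inv₀, Complex.conj_ofNat]
  ring

/-- the unitary matrix -/
def VV (a c v v' : B) : CStarMatrix (Fin 2) (Fin 2) B :=
  CStarMatrix.ofMatrix !![(2⁻¹ : ℂ) • (a * (v + v') * c), (2⁻¹ : ℂ) • (a * (v - v'));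
    (2⁻¹ : ℂ) • ((v - v') * c), (2⁻¹ : ℂ) • (v + v')]

theorem VV_unitary {a c v v' : B} (ha : a ∈ unitary B) (hc : c ∈ unitary B)
    (hv : v ∈ unitary B) (hv' : v' ∈ unitary B) :
    VV a c v v' ∈ unitary (CStarMatrix (Fin 2) (Fin 2) B) := by
  rw [Unitary.mem_iff] at ha hc hv hv' ⊢
  obtain ⟨ha1, ha2⟩ := ha
  obtain ⟨hc1, hc2⟩ := hc
  obtain ⟨hv1, hv2⟩ := hv
  obtain ⟨hw1, hw2⟩ := hv'
  have s1 : star (v + v') * (v + v') + star (v - v') * (v - v') = (4 : ℂ) • (1 : B) := by
    rw [star_add, star_sub]
    have : (star v + star v') * (v + v') + (star v - star v') * (v - v') =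
        (2 : ℂ) • (star v * v) + (2 : ℂ) • (star v' * v') := by
      rw [two_smul, two_smul]; noncomm_ring
    rw [this, hv1, hw1, ← add_smul]; norm_num
  have s2 : star (v + v') * (v - v') + star (v - v') * (v + v') = 0 := by
    rw [star_add, star_sub]
    have : (star v + star v') * (v - v') + (star v - star v') * (v + v') =
        (2 : ℂ) • (star v * v) - (2 : ℂ) • (star v' * v') := by
      rw [two_smul, two_smul]; noncomm_ring
    rw [this, hv1, hw1, sub_self]
  have s2' : star (v - v') * (v + v') + star (v + v') * (v - v') = 0 := by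
    rw [add_comm]; exact s2
  have t1 : (v + v') * star (v + v') + (v - v') * star (v - v') = (4 : ℂ) • (1 : B) := by
    rw [star_add, star_sub]
    have : (v + v') * (star v + star v') + (v - v') * (star v - star v') =
        (2 : ℂ) • (v * star v) + (2 : ℂ) • (v' * star v') := by
      rw [two_smul, two_smul]; noncomm_ring
    rw [this, hv2, hw2, ← add_smul]; norm_num
  have t2 : (v + v') * star (v - v') + (v - v') * star (v + v') = 0 := by
    rw [star_add, star_sub]
    have : (v + v') * (star v - star v') + (v - v') * (star v + star v') =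
        (2 : ℂ) • (v * star v) - (2 : ℂ) • (v' * star v') := by
      rw [two_smul, two_smul]; noncomm_ring
    rw [this, hv2, hw2, sub_self]
  have t2' : (v - v') * star (v + v') + (v + v') * star (v - v') = 0 := by
    rw [add_comm]; exact t2
  set s := v + v' with hs
  set d := v - v' with hd
  have hl : ∀ x y : B, star ((2⁻¹ : ℂ) • x) * ((2⁻¹ : ℂ) • y) = (4⁻¹ : ℂ) • (star x * y) := by
    intro x y
    rw [star_smul, smul_mul_smul_comm, Complex.star_def]
    congr 1
    simp only [map_inv₀, Complex.conj_ofNat]; norm_num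
  have hr : ∀ x y : B, ((2⁻¹ : ℂ) • x) * star ((2⁻¹ : ℂ) • y) = (4⁻¹ : ℂ) • (x * star y) := by
    intro x y
    rw [star_smul, smul_mul_smul_comm, Complex.star_def]
    congr 1
    simp only [map_inv₀, Complex.conj_ofNat]; norm_num
  have hq : (4⁻¹ : ℂ) • ((4 : ℂ) • (1 : B)) = 1 := by
    rw [smul_smul]; norm_num
  have l00 : star (a * s * c) * (a * s * c) + star (d * c) * (d * c) = (4 : ℂ) • (1 : B) := by
    have e : star (a * s * c) * (a * s * c) + star (d * c) * (d * c) =
        star c * (star s * (star a * a) * s + star d * d) * c := by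
      simp only [star_mul]; noncomm_ring
    rw [e, ha1, mul_one, s1, mul_smul_comm, smul_mul_assoc, mul_one, hc1]
  have l01 : star (a * s * c) * (a * d) + star (d * c) * s = 0 := by
    have e : star (a * s * c) * (a * d) + star (d * c) * s =
        star c * (star s * (star a * a) * d + star d * s) := by
      simp only [star_mul]; noncomm_ring
    rw [e, ha1, mul_one, s2, mul_zero]
  have l10 : star (a * d) * (a * s * c) + star s * (d * c) = 0 := by
    have e : star (a * d) * (a * s * c) + star s * (d * c) =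
        (star d * (star a * a) * s + star s * d) * c := by
      simp only [star_mul]; noncomm_ring
    rw [e, ha1, mul_one, s2', zero_mul]
  have l11 : star (a * d) * (a * d) + star s * s = (4 : ℂ) • (1 : B) := by
    have e : star (a * d) * (a * d) + star s * s =
        star s * s + star d * (star a * a) * d := by
      simp only [star_mul]; noncomm_ring
    rw [e, ha1, mul_one, s1]
  have r00 : (a * s * c) * star (a * s * c) + (a * d) * star (a * d) = (4 : ℂ) • (1 : B) := by
    have e : (a * s * c) * star (a * s * c) + (a * d) * star (a * d) =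
        a * (s * (c * star c) * star s + d * star d) * star a := by
      simp only [star_mul]; noncomm_ring
    rw [e, hc2, mul_one, t1, mul_smul_comm, smul_mul_assoc, mul_one, ha2]
  have r01 : (a * s * c) * star (d * c) + (a * d) * star s = 0 := by
    have e : (a * s * c) * star (d * c) + (a * d) * star s =
        a * (s * (c * star c) * star d + d * star s) := by
      simp only [star_mul]; noncomm_ring
    rw [e, hc2, mul_one, t2, mul_zero]
  have r10 : (d * c) * star (a * s * c) + s * star (a * d) = 0 := by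
    have e : (d * c) * star (a * s * c) + s * star (a * d) =
        (d * (c * star c) * star s + s * star d) * star a := by
      simp only [star_mul]; noncomm_ring
    rw [e, hc2, mul_one, t2', zero_mul]
  have r11 : (d * c) * star (d * c) + s * star s = (4 : ℂ) • (1 : B) := by
    have e : (d * c) * star (d * c) + s * star s =
        s * star s + d * (c * star c) * star d := by
      simp only [star_mul]; noncomm_ring
    rw [e, hc2, mul_one, t1]
  have v00 : VV a c v v' 0 0 = (2⁻¹ : ℂ) • (a * s * c) := rfl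
  have v01 : VV a c v v' 0 1 = (2⁻¹ : ℂ) • (a * d) := rfl
  have v10 : VV a c v v' 1 0 = (2⁻¹ : ℂ) • (d * c) := rfl
  have v11 : VV a c v v' 1 1 = (2⁻¹ : ℂ) • s := rfl
  constructor
  · ext i j
    rw [CStarMatrix.mul_apply, Fin.sum_univ_two, CStarMatrix.star_apply, CStarMatrix.star_apply]
    fin_cases i <;> fin_cases j
    · change star (VV a c v v' 0 0) * VV a c v v' 0 0 + star (VV a c v v' 1 0) * VV a c v v' 1 0 = 1
      rw [v00, v10, hl, hl, ← smul_add, l00, hq]
    · change star (VV a c v v' 0 0) * VV a c v v' 0 1 + star (VV a c v v' 1 0) * VV a c v v' 1 1 = 0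
      rw [v00, v10, v01, v11, hl, hl, ← smul_add, l01, smul_zero]
    · change star (VV a c v v' 0 1) * VV a c v v' 0 0 + star (VV a c v v' 1 1) * VV a c v v' 1 0 = 0
      rw [v00, v10, v01, v11, hl, hl, ← smul_add, l10, smul_zero]
    · change star (VV a c v v' 0 1) * VV a c v v' 0 1 + star (VV a c v v' 1 1) * VV a c v v' 1 1 = 1
      rw [v01, v11, hl, hl, ← smul_add, l11, hq]
  · ext i j
    rw [CStarMatrix.mul_apply, Fin.sum_univ_two, CStarMatrix.star_apply, CStarMatrix.star_apply]
    fin_cases i <;> fin_cases j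
    · change VV a c v v' 0 0 * star (VV a c v v' 0 0) + VV a c v v' 0 1 * star (VV a c v v' 0 1) = 1
      rw [v00, v01, hr, hr, ← smul_add, r00, hq]
    · change VV a c v v' 0 0 * star (VV a c v v' 1 0) + VV a c v v' 0 1 * star (VV a c v v' 1 1) = 0
      rw [v00, v10, v01, v11, hr, hr, ← smul_add, r01, smul_zero]
    · change VV a c v v' 1 0 * star (VV a c v v' 0 0) + VV a c v v' 1 1 * star (VV a c v v' 0 1) = 0
      rw [v00, v10, v01, v11, hr, hr, ← smul_add, r10, smul_zero]
    · change VV a c v v' 1 0 * star (VV a c v v' 1 0) + VV a c v v' 1 1 * star (VV a c v v' 1 1) = 1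
      rw [v10, v11, hr, hr, ← smul_add, r11, hq]

section main

variable (hf : IsFormB f C) {n : ℂ}
  (hV : ∀ V ∈ unitary (CStarMatrix (Fin 2) (Fin 2) B), ∑ i, ∑ j, f (V i j) (V i j) = 2 * n)

include hf hV

theorem eight {a c v v' : B} (ha : a ∈ unitary B) (hc : c ∈ unitary B)
    (hv : v ∈ unitary B) (hv' : v' ∈ unitary B) :
    f (a * (v + v') * c) (a * (v + v') * c) + f (a * (v - v')) (a * (v - v')) +
      f ((v - v') * c) ((v - v') * c) + f (v + v') (v + v') = 8 * n := by
  have h := hV _ (VV_unitary ha hc hv hv')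
  rw [Fin.sum_univ_two, Fin.sum_univ_two, Fin.sum_univ_two] at h
  have v00 : VV a c v v' 0 0 = (2⁻¹ : ℂ) • (a * (v + v') * c) := rfl
  have v01 : VV a c v v' 0 1 = (2⁻¹ : ℂ) • (a * (v - v')) := rfl
  have v10 : VV a c v v' 1 0 = (2⁻¹ : ℂ) • ((v - v') * c) := rfl
  have v11 : VV a c v v' 1 1 = (2⁻¹ : ℂ) • (v + v') := rfl
  rw [v00, v01, v10, v11, quarter hf, quarter hf, quarter hf, quarter hf] at h
  linear_combination 4 * h

omit hf hV in
theorem neg_mem {v : B} (hv : v ∈ unitary B) : -v ∈ unitary B := by
  rw [Unitary.mem_iff] at hv ⊢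
  simpa using hv

theorem PP_diag {a c v v' : B} (ha : a ∈ unitary B) (hc : c ∈ unitary B)
    (hv : v ∈ unitary B) (hv' : v' ∈ unitary B) :
    PP f a c (v + v') (v + v') = PP f a c (v - v') (v - v') := by
  have h1 := eight hf hV ha hc hv hv'
  have h2 := eight hf hV ha hc hv (neg_mem hv')
  rw [← sub_eq_add_neg, sub_neg_eq_add] at h2
  unfold PP
  linear_combination h1 - h2

theorem PP_re {a c v v' : B} (ha : a ∈ unitary B) (hc : c ∈ unitary B)
    (hv : v ∈ unitary B) (hv' : v' ∈ unitary B) : (PP f a c v v').re = 0 := by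
  have h := PP_diag hf hV ha hc hv hv'
  have e1 : PP f a c (v + v') (v + v') = PP f a c v v + PP f a c v v' + PP f a c v' v +
      PP f a c v' v' := by
    rw [PP_addL hf, PP_addR hf, PP_addR hf]; ring
  have e2 : PP f a c (v - v') (v - v') = PP f a c v v - PP f a c v v' - PP f a c v' v +
      PP f a c v' v' := by
    have hm : v - v' = v + (-1 : ℂ) • v' := by rw [neg_one_smul, sub_eq_add_neg]
    rw [hm, PP_addL hf, PP_addR hf, PP_addR hf, PP_smulL hf, PP_smulR hf, PP_smulR hf, PP_smulL hf]
    simp only [map_neg, map_one]; ring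
  rw [e1, e2] at h
  have h3 : PP f a c v v' + PP f a c v' v = 0 := by linear_combination h / 2
  rw [PP_herm hf a c v v'] at h3
  have h4 := congrArg Complex.re h3
  rw [Complex.add_re, Complex.conj_re, Complex.zero_re] at h4
  linarith

theorem PP_unit {a c v v' : B} (ha : a ∈ unitary B) (hc : c ∈ unitary B)
    (hv : v ∈ unitary B) (hv' : v' ∈ unitary B) : PP f a c v v' = 0 := by
  have h1 := PP_re hf hV ha hc hv hv'
  have hi : Complex.I • v' ∈ unitary B := by
    rw [Unitary.mem_iff] at hv' ⊢
    rw [star_smul, smul_mul_smul_comm, smul_mul_smul_comm, hv'.1, hv'.2]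
    simp
  have h2 := PP_re hf hV ha hc hv hi
  rw [PP_smulR hf, Complex.mul_re, Complex.I_re, Complex.I_im] at h2
  apply Complex.ext
  · exact h1
  · rw [Complex.zero_im]; linarith

theorem PP_zero {a c : B} (ha : a ∈ unitary B) (hc : c ∈ unitary B) (y y' : B) :
    PP f a c y y' = 0 := by
  refine span_induction' (p := fun y => PP f a c y y' = 0) ?_ ?_ ?_ ?_ y
  · have := PP_smulL hf a c y' 0 0
    simpa using this
  · intro x z hx hz; rw [PP_addL hf, hx, hz, add_zero]
  · intro t x hx; rw [PP_smulL hf, hx, mul_zero]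
  · intro v hv
    refine span_induction' (p := fun y' => PP f a c v y' = 0) ?_ ?_ ?_ ?_ y'
    · have := PP_smulR hf a c v 0 0
      simpa using this
    · intro x z hx hz; rw [PP_addR hf, hx, hz, add_zero]
    · intro t x hx; rw [PP_smulR hf, hx, mul_zero]
    · intro v' hv'; exact PP_unit hf hV ha hc hv hv'

end main

/-- the linear functional `z ↦ f a (a z) - f 1 z` -/
def lamL (hf : IsFormB f C) (a : B) : B →ₗ[ℂ] ℂ where
  toFun z := f a (a * z) - f 1 z
  map_add' x y := by simp only [mul_add, hf.add]; ring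
  map_smul' c x := by simp only [mul_smul_comm, hf.smul, RingHom.id_apply, smul_eq_mul]; ring

/-- the linear functional `z ↦ f c (z c) - f 1 z` -/
def muL (hf : IsFormB f C) (c : B) : B →ₗ[ℂ] ℂ where
  toFun z := f c (z * c) - f 1 z
  map_add' x y := by simp only [add_mul, hf.add]; ring
  map_smul' t x := by simp only [smul_mul_assoc, hf.smul, RingHom.id_apply, smul_eq_mul]; ring

theorem norm_le_one {a : B} (ha : a ∈ unitary B) : ‖a‖ ≤ 1 := by
  rcases subsingleton_or_nontrivial B with h | h
  · rw [Subsingleton.elim a 0, norm_zero]; exact zero_le_one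
  · exact (CStarRing.norm_of_mem_unitary ha).le

theorem lamL_bd (hf : IsFormB f C) (hC : 0 ≤ C) {a : B} (ha : a ∈ unitary B) (z : B) :
    ‖lamL hf a z‖ ≤ 2 * C * ‖z‖ := by
  have h1 : ‖f a (a * z)‖ ≤ C * ‖z‖ := by
    refine (hf.bd _ _).trans ?_
    have h2 : ‖a * z‖ ≤ ‖z‖ := (norm_mul_le _ _).trans
      (mul_le_of_le_one_left (norm_nonneg _) (norm_le_one ha))
    calc C * ‖a‖ * ‖a * z‖ ≤ C * 1 * ‖z‖ := by
          apply mul_le_mul (mul_le_mul_of_nonneg_left (norm_le_one ha) hC) h2 (norm_nonneg _)
          positivity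
      _ = C * ‖z‖ := by rw [mul_one]
  have h2 : ‖f 1 z‖ ≤ C * ‖z‖ := by
    refine (hf.bd _ _).trans ?_
    have h3 : ‖(1 : B)‖ ≤ 1 := norm_le_one (one_mem _)
    calc C * ‖(1 : B)‖ * ‖z‖ ≤ C * 1 * ‖z‖ := by gcongr
      _ = C * ‖z‖ := by rw [mul_one]
  calc ‖lamL hf a z‖ ≤ ‖f a (a * z)‖ + ‖f 1 z‖ := norm_sub_le _ _
    _ ≤ C * ‖z‖ + C * ‖z‖ := add_le_add h1 h2
    _ = 2 * C * ‖z‖ := by ring

theorem muL_bd (hf : IsFormB f C) (hC : 0 ≤ C) {a : B} (ha : a ∈ unitary B) (z : B) :
    ‖muL hf a z‖ ≤ 2 * C * ‖z‖ := by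
  have h1 : ‖f a (z * a)‖ ≤ C * ‖z‖ := by
    refine (hf.bd _ _).trans ?_
    have h2 : ‖z * a‖ ≤ ‖z‖ := (norm_mul_le _ _).trans
      (mul_le_of_le_one_right (norm_nonneg _) (norm_le_one ha))
    calc C * ‖a‖ * ‖z * a‖ ≤ C * 1 * ‖z‖ := by
          apply mul_le_mul (mul_le_mul_of_nonneg_left (norm_le_one ha) hC) h2 (norm_nonneg _)
          positivity
      _ = C * ‖z‖ := by rw [mul_one]
  have h2 : ‖f 1 z‖ ≤ C * ‖z‖ := by
    refine (hf.bd _ _).trans ?_
    have h3 : ‖(1 : B)‖ ≤ 1 := norm_le_one (one_mem _)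
    calc C * ‖(1 : B)‖ * ‖z‖ ≤ C * 1 * ‖z‖ := by gcongr
      _ = C * ‖z‖ := by rw [mul_one]
  calc ‖muL hf a z‖ ≤ ‖f a (z * a)‖ + ‖f 1 z‖ := norm_sub_le _ _
    _ ≤ C * ‖z‖ + C * ‖z‖ := add_le_add h1 h2
    _ = 2 * C * ‖z‖ := by ring

/-- the statement `S_isoAlg` with the additional hypothesis `0 ≤ C` -/
theorem isoAlg0 (B : Type) [CStarAlgebra B] (f : B → B → ℂ) (C : ℝ) (hf : IsFormB f C)
    (hC : 0 ≤ C) (n : ℂ)
    (hV : ∀ V ∈ unitary (CStarMatrix (Fin 2) (Fin 2) B), ∑ i, ∑ j, f (V i j) (V i j) = 2 * n) :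
    (∀ v ∈ unitary B, f v v = n) ∧
    ∃ lam mu : unitary B → (B →L[ℂ] ℂ), (∀ a, ‖lam a‖ ≤ 2 * C) ∧ (∀ a, ‖mu a‖ ≤ 2 * C) ∧
      (∀ (a : unitary B) (y y' : B),
        f ((a : B) * y) ((a : B) * y') = f y y' + lam a (y' * star y)) ∧
      (∀ (c : unitary B) (y y' : B),
        f (y * (c : B)) (y' * (c : B)) = f y y' + mu c (star y * y')) := by
  have hP := fun {a c : B} (ha : a ∈ unitary B) (hc : c ∈ unitary B) => PP_zero hf hV ha hc
  refine ⟨?_, fun a => (lamL hf (a : B)).mkContinuous (2 * C) (lamL_bd hf hC a.2),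
    fun a => (muL hf (a : B)).mkContinuous (2 * C) (muL_bd hf hC a.2), ?_, ?_, ?_, ?_⟩
  · intro v hv
    have h1 := hV (CStarMatrix.ofMatrix !![v, 0; 0, v]) (by
      rw [Unitary.mem_iff] at hv ⊢
      constructor
      · ext i j
        rw [CStarMatrix.mul_apply, Fin.sum_univ_two, CStarMatrix.star_apply,
          CStarMatrix.star_apply]
        fin_cases i <;> fin_cases j
        · change star v * v + star (0 : B) * 0 = 1
          rw [hv.1, mul_zero, add_zero]
        · change star v * 0 + star (0 : B) * v = 0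
          rw [mul_zero, star_zero, zero_mul, add_zero]
        · change star (0 : B) * v + star v * 0 = 0
          rw [mul_zero, star_zero, zero_mul, add_zero]
        · change star (0 : B) * 0 + star v * v = 1
          rw [hv.1, mul_zero, zero_add]
      · ext i j
        rw [CStarMatrix.mul_apply, Fin.sum_univ_two, CStarMatrix.star_apply,
          CStarMatrix.star_apply]
        fin_cases i <;> fin_cases j
        · change v * star v + 0 * star (0 : B) = 1
          rw [hv.2, zero_mul, add_zero]
        · change v * star (0 : B) + 0 * star v = 0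
          rw [star_zero, mul_zero, zero_mul, add_zero]
        · change 0 * star v + v * star (0 : B) = 0
          rw [star_zero, mul_zero, zero_mul, add_zero]
        · change 0 * star (0 : B) + v * star v = 1
          rw [hv.2, zero_mul, zero_add])
    rw [Fin.sum_univ_two, Fin.sum_univ_two, Fin.sum_univ_two] at h1
    change f v v + f 0 0 + (f 0 0 + f v v) = 2 * n at h1
    rw [zeroR hf] at h1
    linear_combination h1 / 2
  · intro a
    exact LinearMap.mkContinuous_norm_le _ (by positivity) _
  · intro a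
    exact LinearMap.mkContinuous_norm_le _ (by positivity) _
  · intro a y y'
    change f ((a : B) * y) ((a : B) * y') = f y y' +
      (f (a : B) ((a : B) * (y' * star y)) - f 1 (y' * star y))
    refine span_induction' (p := fun y => f ((a : B) * y) ((a : B) * y') = f y y' +
      (f (a : B) ((a : B) * (y' * star y)) - f 1 (y' * star y))) ?_ ?_ ?_ ?_ y
    · have h0 : f ((a : B) * 0) ((a : B) * y') = 0 := by
        have := smulL hf 0 0 ((a : B) * y')
        simpa using this
      have h0' : f 0 y' = 0 := by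
        have := smulL hf 0 0 y'
        simpa using this
      rw [h0, h0', star_zero, mul_zero, mul_zero, zeroR hf, zeroR hf]; simp
    · intro x z hx hz
      rw [mul_add, addL hf, addL hf, star_add, mul_add, mul_add, hf.add, hf.add, hx, hz]
      ring
    · intro t x hx
      rw [mul_smul_comm, smulL hf, smulL hf, star_smul, mul_smul_comm, mul_smul_comm, hf.smul,
        hf.smul, hx, Complex.star_def]
      ring
    · intro v hv
      have hs : star v ∈ unitary B := Unitary.star_mem hv
      have h1 := hP a.2 hs v y'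
      unfold PP at h1
      rw [mul_assoc (a : B) v, (Unitary.mem_iff.mp hv).2, mul_one, mul_assoc (a : B) y'] at h1
      linear_combination -h1
  · intro c y y'
    change f (y * (c : B)) (y' * (c : B)) = f y y' +
      (f (c : B) ((star y * y') * (c : B)) - f 1 (star y * y'))
    refine span_induction' (p := fun y => f (y * (c : B)) (y' * (c : B)) = f y y' +
      (f (c : B) ((star y * y') * (c : B)) - f 1 (star y * y'))) ?_ ?_ ?_ ?_ y
    · have h0 : f (0 * (c : B)) (y' * (c : B)) = 0 := by
        have := smulL hf 0 0 (y' * (c : B))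
        simpa using this
      have h0' : f 0 y' = 0 := by
        have := smulL hf 0 0 y'
        simpa using this
      rw [h0, h0', star_zero, zero_mul, zero_mul, zeroR hf, zeroR hf]; simp
    · intro x z hx hz
      rw [add_mul, addL hf, addL hf, star_add, add_mul, add_mul, hf.add, hf.add, hx, hz]
      ring
    · intro t x hx
      rw [smul_mul_assoc, smulL hf, smulL hf, star_smul, smul_mul_assoc, smul_mul_assoc, hf.smul,
        hf.smul, hx, Complex.star_def]
      ring
    · intro v hv
      have hs : star v ∈ unitary B := Unitary.star_mem hv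
      have h1 := hP hs c.2 v y'
      unfold PP at h1
      rw [(Unitary.mem_iff.mp hv).1, one_mul] at h1
      linear_combination -h1

end Pool.Agent.Y461.D3
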